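import Pool.Agent.Lib.MP_155064_nt.Final

/-!
# Sharp constants for even-order antiderivatives of the zeta argument (MP_155064_nt, Q1)

Under RH, for every even `n ≥ 2`,
`-(A_n^- + o(1)) Λ_n(t) ≤ S_n(t) ≤ (A_n^+ + o(1)) Λ_n(t)`.

The definitions are in `Pool/Agent/Lib/MP_155064_nt/Defs.lean`.

Idea of the proof.  For `σ > 1/2` put `S_n^σ(t) = (1/π) Im (i^n J_n(σ+it))`, `J_0 = log ζ`,
`J_{n+1}(s) = ∫_0^∞ J_n(s+x) dx`.  Then `(S_{n+1}^σ)' = S_n^σ` and, by positivity of
`Re ξ'/ξ` to the right of the critical line, `(S_0^σ)'(t) ≥ -(1/2π) log t - O(1)`: a one-sided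
bound for the top derivative.  A priori bounds for `ζ'/ζ` (Harnack, three lines theorem) give
bounds for `S_m^σ` with constants `(1+o(1))^m` times the conjectured one for large odd `m`.
A one-sided version of Kolmogorov's comparison theorem (the extremal functions being periodic
Bernoulli functions, whose top derivative is `-1` plus Dirac masses) then brings the bounds down,
one derivative at a time, from `m` to any `n`, losing only a factor `1+o(1)` at each step and
uniformly in `σ`.  Letting `σ → 1/2` gives the theorem.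
-/

set_option autoImplicit false

namespace Pool.Agent.Results.MP_155064_nt.SharpBounds

open Pool.Agent.Lib.MP_155064_nt Filter

/-- Q1: under RH, for every even `n ≥ 2` and every `ε > 0`, for all large `t`,
`-(A_n^- + ε) Λ_n(t) ≤ S_n(t) ≤ (A_n^+ + ε) Λ_n(t)`. -/
theorem result : RiemannHypothesis → ∀ n : ℕ, Even n → 2 ≤ n → ∀ ε : ℝ, 0 < ε →
    ∀ᶠ t : ℝ in atTop, -(Aminus n + ε) * Lambda n t ≤ zetaSn n t ∧
      zetaSn n t ≤ (Aplus n + ε) * Lambda n t :=
  fun hRH n _ hn _ hε => sharp_bounds hRH n (by omega) hε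

end Pool.Agent.Results.MP_155064_nt.SharpBounds
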